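import Pool.Agent.Q73.Univ.Topo

/-!
# The main argument
-/

set_option autoImplicit false

open Polynomial Filter Topology

namespace Q73.Univ

/-- partial sums of a power series -/
noncomputable def SS (a : ℕ → ℂ) (n : ℕ) (z : ℂ) : ℂ := ∑ k ∈ Finset.range (n + 1), a k * z ^ k

theorem main {a : ℕ → ℂ} {r R : ℝ} (hr : 1 ≤ r) (hrR : r < R)
    (h0 : 0 < ldens {n | ‖SS a n r‖ < 1 / 4}) (h1 : 0 < ldens {n | ‖SS a n r - 1‖ < 1 / 4})
    (hK : ∀ t : ℝ, 0 < t → 0 < ldens {n | ∀ z ∈ KK ((r + R) / 2) R t, ‖SS a n z‖ < 1}) : False := by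
  obtain ⟨M0, hM0, n0, H0⟩ := exists_mem_of_ldens h0
  obtain ⟨M1, hM1, n1, H1⟩ := exists_mem_of_ldens h1
  set M := max M0 M1 with hM
  have hMpos : 0 < M := lt_of_lt_of_le hM0 (le_max_left _ _)
  set r₁ := (r + R) / 2 with hr₁
  have hrr : r < r₁ := by rw [hr₁]; linarith
  have hr₁R : r₁ < R := by rw [hr₁]; linarith
  have hr0 : 0 < r := by linarith
  have hr₁0 : 0 < r₁ := by linarith
  have hR0 : 0 < R := by linarith
  set A := 2 * R / (R - r₁) with hA
  have hA1 : 1 ≤ A := by
    rw [hA, le_div_iff₀ (by linarith)]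
    linarith
  set q := r / r₁ with hq
  have hq0 : 0 < q := by positivity
  have hq1 : q < 1 := (div_lt_one hr₁0).2 hrr
  obtain ⟨L', hL'⟩ := exists_pow_lt_of_lt_one (show 0 < 1 / A by positivity) hq1
  set L := L' + 1 with hL
  have hLA : A * q ^ L ≤ 1 := by
    have h2 : q ^ L ≤ q ^ L' := pow_le_pow_of_le_one hq0.le hq1.le (Nat.le_succ _)
    calc A * q ^ L ≤ A * (1 / A) := mul_le_mul_of_nonneg_left (h2.trans hL'.le) (by linarith)
      _ = 1 := by field_simp
  have hLpos : 0 < L := Nat.succ_pos _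
  obtain ⟨j0, hj0⟩ := exists_pow_lt_of_lt_one (show 0 < (1 - q) / 8 by linarith) hq1
  set N := 2 * M * L with hN
  have hNpos : 0 < N := by positivity
  set t := 2 / (2 * (4 * R / (R - r₁))) ^ N with ht
  have ht0 : 0 < t := by
    have : 0 < 4 * R / (R - r₁) := div_pos (by linarith) (by linarith)
    positivity
  obtain ⟨Mt, hMt, nt, Ht⟩ := exists_mem_of_ldens (hK t ht0)
  -- a large `n` with small partial sum on the large set
  set B := n0 + n1 + 2 * M * (j0 + L) with hB
  obtain ⟨n, hnE, hn1, hn2⟩ := Ht (nt + Mt * B) (Nat.le_add_right _ _)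
  have hnB : B ≤ n := by
    refine le_trans ?_ hn1
    rw [Nat.le_div_iff_mul_le (by omega)]
    nlinarith
  obtain ⟨m0, hm0E, hm01, hm02⟩ := H0 n (by omega)
  obtain ⟨m1, hm1E, hm11, hm12⟩ := H1 n (by omega)
  set K := n / N + 1 with hKdef
  have hnK : n ≤ N * K := (Nat.lt_mul_div_succ n hNpos).le
  -- the polynomial
  set P : ℂ[X] := ∑ k ∈ Finset.range (n + 1), C (a k) * X ^ k with hP
  have hPe : ∀ z, P.eval z = SS a n z := by
    intro z
    rw [hP, SS, Polynomial.eval_finsetSum]
    refine Finset.sum_congr rfl fun k _ => ?_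
    simp
  have hPdeg : P.natDegree ≤ n := by
    refine Polynomial.natDegree_sum_le_of_forall_le _ _ fun k hk => ?_
    refine (Polynomial.natDegree_C_mul_X_pow_le _ _).trans ?_
    exact Nat.lt_succ_iff.1 (Finset.mem_range.1 hk)
  have hPcoeff : ∀ k, k ≤ n → P.coeff k = a k := by
    intro k hk
    rw [hP, Polynomial.finsetSum_coeff]
    simp only [Polynomial.coeff_C_mul, Polynomial.coeff_X_pow]
    rw [Finset.sum_eq_single k]
    · simp
    · intro b _ hb
      rw [if_neg (fun h => hb h.symm), mul_zero]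
    · intro h
      exact absurd (Finset.mem_range.2 (by omega)) h
  have hsmall : ∀ z : ℂ, ‖z‖ ≤ r₁ → ‖P.eval z‖ ≤ A ^ K := fun z hz =>
    shrink hr₁0 hr₁R hnK P hPdeg (fun w hw => by
      rw [hPe]
      exact (hnE w hw).le) hz
  have hcoef : ∀ k, k ≤ n → ‖a k‖ ≤ A ^ K / r₁ ^ k := by
    intro k hk
    rw [← hPcoeff k hk]
    exact coeff_bound P hr₁0 (fun z hz => hsmall z hz.le) k
  -- comparison of partial sums
  have hcomp : ∀ m, n / M ≤ m → m ≤ n → ‖SS a n r - SS a m r‖ ≤ 1 / 8 := by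
    intro m hm hmn
    have e : SS a n r - SS a m r = ∑ k ∈ Finset.Ico (m + 1) (n + 1), a k * (r : ℂ) ^ k := by
      rw [Finset.sum_Ico_eq_sub _ (by omega)]
      rfl
    have hLK : L * K + j0 ≤ m := by
      have h2 : N = 2 * M * L := hN
      have h3 : L * (n / N) ≤ n / (2 * M) := by
        rw [h2, ← Nat.div_div_eq_div_mul]
        exact Nat.mul_div_le _ _
      have h4 : 2 * (n / (2 * M)) ≤ n / M := by
        rw [Nat.le_div_iff_mul_le hMpos]
        calc 2 * (n / (2 * M)) * M = (2 * M) * (n / (2 * M)) := by ring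
          _ ≤ n := Nat.mul_div_le _ _
      have h5 : j0 + L ≤ n / (2 * M) := by
        rw [Nat.le_div_iff_mul_le (by positivity)]
        calc (j0 + L) * (2 * M) = 2 * M * (j0 + L) := by ring
          _ ≤ n := by omega
      calc L * K + j0 = L * (n / N) + (L + j0) := by rw [hKdef]; ring
        _ ≤ m := by omega
    rw [e]
    calc ‖∑ k ∈ Finset.Ico (m + 1) (n + 1), a k * (r : ℂ) ^ k‖
        ≤ ∑ k ∈ Finset.Ico (m + 1) (n + 1), A ^ K * q ^ k := by
          refine (norm_sum_le _ _).trans (Finset.sum_le_sum fun k hk => ?_)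
          have hk' : k ≤ n := by
            have := (Finset.mem_Ico.1 hk).2
            omega
          rw [norm_mul, norm_pow, Complex.norm_real, Real.norm_eq_abs, abs_of_pos hr0]
          calc ‖a k‖ * r ^ k ≤ A ^ K / r₁ ^ k * r ^ k :=
                mul_le_mul_of_nonneg_right (hcoef k hk') (by positivity)
            _ = A ^ K * q ^ k := by
                rw [hq, div_pow]
                ring
      _ = A ^ K * ∑ k ∈ Finset.Ico (m + 1) (n + 1), q ^ k := by rw [Finset.mul_sum]
      _ ≤ A ^ K * (q ^ (m + 1) / (1 - q)) :=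
          mul_le_mul_of_nonneg_left (geom_sum_Ico_le_of_lt_one hq0.le hq1) (by positivity)
      _ ≤ A ^ K * (q ^ (L * K + j0) / (1 - q)) := by
          refine mul_le_mul_of_nonneg_left ?_ (by positivity)
          refine div_le_div_of_nonneg_right ?_ (by linarith)
          exact pow_le_pow_of_le_one hq0.le hq1.le (by omega)
      _ = (A * q ^ L) ^ K * (q ^ j0 / (1 - q)) := by
          rw [mul_pow, ← pow_mul, pow_add]
          ring
      _ ≤ 1 * (q ^ j0 / (1 - q)) := by
          refine mul_le_mul_of_nonneg_right ?_ (div_nonneg (by positivity) (by linarith))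
          exact pow_le_one₀ (by positivity) hLA
      _ ≤ 1 / 8 := by
          rw [one_mul, div_le_iff₀ (by linarith)]
          linarith
  have c0 := hcomp m0 ((Nat.div_le_div_left (le_max_left _ _) (by omega)).trans hm01) hm02
  have c1 := hcomp m1 ((Nat.div_le_div_left (le_max_right _ _) (by omega)).trans hm11) hm12
  have d0 : ‖SS a m0 r‖ < 1 / 4 := hm0E
  have d1 : ‖SS a m1 r - 1‖ < 1 / 4 := hm1E
  have e2 : (1 : ℂ) = SS a m0 r + ((SS a n r - SS a m0 r) - (SS a n r - SS a m1 r)) -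
      (SS a m1 r - 1) := by ring
  have h9 : ‖(1 : ℂ)‖ ≤ ‖SS a m0 r‖ + (‖SS a n r - SS a m0 r‖ + ‖SS a n r - SS a m1 r‖) +
      ‖SS a m1 r - 1‖ := by
    conv_lhs => rw [e2]
    refine (norm_sub_le _ _).trans (add_le_add ?_ le_rfl)
    refine (norm_add_le _ _).trans (add_le_add le_rfl ?_)
    exact norm_sub_le _ _
  rw [norm_one] at h9
  linarith

end Q73.Univ
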