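import Mathlib

/-!
# Polynomials small on a large arc
-/

set_option autoImplicit false

open Polynomial Filter Topology

namespace Q73.Univ

theorem iteratedDeriv_poly (P : ℂ[X]) (k : ℕ) :
    iteratedDeriv k (fun z => P.eval z) = fun z => (derivative^[k] P).eval z := by
  induction k with
  | zero => simp
  | succ k ih =>
    rw [iteratedDeriv_succ, ih, Function.iterate_succ_apply']
    funext z
    exact Polynomial.deriv _

theorem coeff_bound (P : ℂ[X]) {ρ A : ℝ} (hρ : 0 < ρ) (h : ∀ z : ℂ, ‖z‖ = ρ → ‖P.eval z‖ ≤ A)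
    (k : ℕ) : ‖P.coeff k‖ ≤ A / ρ ^ k := by
  have h1 := Complex.norm_iteratedDeriv_le_of_forall_mem_sphere_norm_le (f := fun z => P.eval z)
    (c := 0) (R := ρ) (C := A) k hρ (P.differentiable.diffContOnCl) (fun z hz => h z (by simpa using hz))
  rw [iteratedDeriv_poly] at h1
  simp only at h1
  rw [← Polynomial.coeff_zero_eq_eval_zero, Polynomial.coeff_iterate_derivative, zero_add,
    Nat.descFactorial_self, nsmul_eq_mul, norm_mul, Complex.norm_natCast] at h1
  have hk : (0 : ℝ) < k.factorial := by exact_mod_cast k.factorial_pos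
  rw [mul_div_assoc] at h1
  exact le_of_mul_le_mul_left h1 hk

theorem growth (P : ℂ[X]) {n : ℕ} (hn : P.natDegree ≤ n) {z₀ : ℂ} {τ T : ℝ} (hτ : 0 < τ) (hT : 1 ≤ T)
    (h : ∀ z, ‖z - z₀‖ ≤ τ → ‖P.eval z‖ ≤ 1) {z : ℂ} (hz : ‖z - z₀‖ ≤ T * τ) :
    ‖P.eval z‖ ≤ (2 * T) ^ n := by
  set Q := taylor z₀ P with hQ
  have hb : ∀ j, ‖Q.coeff j‖ ≤ 1 / τ ^ j := by
    intro j
    refine coeff_bound Q hτ (fun w hw => ?_) j
    rw [hQ, taylor_eval]
    refine h _ ?_
    rw [add_sub_cancel_right, hw]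
  have he : P.eval z = ∑ j ∈ Finset.range (n + 1), Q.coeff j * (z - z₀) ^ j := by
    have : Q.eval (z - z₀) = P.eval z := by
      rw [hQ, taylor_eval, sub_add_cancel]
    rw [← this, Polynomial.eval_eq_sum_range' (n := n + 1)]
    rw [hQ, natDegree_taylor]
    omega
  rw [he]
  calc ‖∑ j ∈ Finset.range (n + 1), Q.coeff j * (z - z₀) ^ j‖
      ≤ ∑ j ∈ Finset.range (n + 1), T ^ n := by
        refine (norm_sum_le _ _).trans (Finset.sum_le_sum fun j hj => ?_)
        have hj' : j ≤ n := Nat.lt_succ_iff.1 (Finset.mem_range.1 hj)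
        rw [norm_mul, norm_pow]
        calc ‖Q.coeff j‖ * ‖z - z₀‖ ^ j ≤ 1 / τ ^ j * (T * τ) ^ j := by
              refine mul_le_mul (hb j) (pow_le_pow_left₀ (norm_nonneg _) hz j) (by positivity)
                (by positivity)
          _ = T ^ j := by
              rw [mul_pow]
              field_simp
          _ ≤ T ^ n := pow_le_pow_right₀ hT hj'
    _ = ((n : ℝ) + 1) * T ^ n := by simp
    _ ≤ 2 ^ n * T ^ n := by
        refine mul_le_mul_of_nonneg_right ?_ (by positivity)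
        have : n + 1 ≤ 2 ^ n := Nat.lt_two_pow_self
        exact_mod_cast this
    _ = (2 * T) ^ n := (mul_pow _ _ _).symm

/-- the compact set: a closed annulus minus an open sector about the positive axis -/
def KK (r₁ R t : ℝ) : Set ℂ := {z | r₁ ≤ ‖z‖ ∧ ‖z‖ ≤ R ∧ ¬ (0 < z.re ∧ |z.im| < t * z.re)}

theorem gap_bound {R t : ℝ} (hR : 0 < R) (ht : 0 < t) {z : ℂ} (hz : ‖z‖ = R) (h1 : 0 < z.re)
    (h2 : |z.im| < t * z.re) : ‖(1 - z / R) / 2‖ ≤ t / 2 := by
  have hsq : z.re ^ 2 + z.im ^ 2 = R ^ 2 := by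
    rw [← hz, ← Complex.normSq_eq_norm_sq, Complex.normSq_apply]
    ring
  have h3 : z.im ^ 2 ≤ (t * z.re) ^ 2 := sq_le_sq' (by linarith [neg_abs_le z.im]) (by linarith [le_abs_self z.im])
  have hre : z.re ≤ R := by
    have := Complex.abs_re_le_norm z
    rw [hz] at this
    exact (le_abs_self _).trans this
  have h4 : R ≤ (1 + t ^ 2 / 2) * z.re := by
    have h5 : R ^ 2 ≤ ((1 + t ^ 2 / 2) * z.re) ^ 2 := by
      have : R ^ 2 ≤ (1 + t ^ 2) * z.re ^ 2 := by nlinarith
      nlinarith [mul_nonneg (sq_nonneg (t ^ 2)) (sq_nonneg z.re)]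
    exact le_of_sq_le_sq h5 (by positivity)
  have h6 : ‖z - R‖ ^ 2 ≤ (R * t) ^ 2 := by
    rw [← Complex.normSq_eq_norm_sq, Complex.normSq_apply]
    simp only [Complex.sub_re, Complex.sub_im, Complex.ofReal_re, Complex.ofReal_im, sub_zero]
    have h7 : (z.re - R) * (z.re - R) + z.im * z.im = 2 * R * (R - z.re) := by nlinarith
    rw [h7]
    have h8 : R - z.re ≤ t ^ 2 / 2 * z.re := by linarith
    have h9 : t ^ 2 / 2 * z.re ≤ t ^ 2 / 2 * R := mul_le_mul_of_nonneg_left hre (by positivity)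
    nlinarith
  have h10 : ‖z - R‖ ≤ R * t := le_of_sq_le_sq h6 (by positivity)
  have e : (1 - z / R) / 2 = -(z - R) / (2 * R) := by
    have : (R : ℂ) ≠ 0 := by exact_mod_cast hR.ne'
    field_simp
    ring
  rw [e, norm_div, norm_neg, norm_mul, Complex.norm_real, Real.norm_eq_abs, abs_of_pos hR]
  simp only [Complex.norm_ofNat]
  rw [div_le_div_iff₀ (by positivity) (by norm_num)]
  nlinarith

theorem shrink {r₁ R : ℝ} (hr : 0 < r₁) (hrR : r₁ < R) {N : ℕ} {n k : ℕ} (hnk : n ≤ N * k)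
    (P : ℂ[X]) (hn : P.natDegree ≤ n)
    (h : ∀ z ∈ KK r₁ R (2 / (2 * (4 * R / (R - r₁))) ^ N), ‖P.eval z‖ ≤ 1) {z : ℂ} (hz : ‖z‖ ≤ r₁) :
    ‖P.eval z‖ ≤ (2 * R / (R - r₁)) ^ k := by
  have hR : 0 < R := hr.trans hrR
  have hd : 0 < R - r₁ := by linarith
  set T := 4 * R / (R - r₁) with hT
  have hT1 : 1 ≤ T := by
    rw [hT, le_div_iff₀ hd]
    linarith
  set C := 2 * T with hC
  have hC1 : 1 ≤ C := by linarith
  set t := 2 / C ^ N with ht
  have ht0 : 0 < t := by positivity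
  -- crude growth
  have hgrow : ∀ z : ℂ, ‖z‖ ≤ R → ‖P.eval z‖ ≤ C ^ n := by
    intro z hz
    refine growth P hn (z₀ := ((-(r₁ + R) / 2 : ℝ) : ℂ)) (τ := (R - r₁) / 2) (by linarith) hT1
      (fun w hw => ?_) ?_
    · have hzn : ‖((-(r₁ + R) / 2 : ℝ) : ℂ)‖ = (r₁ + R) / 2 := by
        rw [Complex.norm_real, Real.norm_eq_abs, abs_of_neg (by linarith)]
        ring
      refine h w ⟨?_, ?_, ?_⟩
      · have := norm_sub_norm_le ((-(r₁ + R) / 2 : ℝ) : ℂ) w
        rw [norm_sub_rev, hzn] at this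
        linarith
      · have := norm_sub_norm_le w ((-(r₁ + R) / 2 : ℝ) : ℂ)
        rw [hzn] at this
        linarith
      · rintro ⟨h1, -⟩
        have h2 := Complex.abs_re_le_norm (w - ((-(r₁ + R) / 2 : ℝ) : ℂ))
        have h3 := (le_abs_self _).trans h2
        rw [Complex.sub_re, Complex.ofReal_re] at h3
        linarith
    · calc ‖z - ((-(r₁ + R) / 2 : ℝ) : ℂ)‖ ≤ ‖z‖ + ‖((-(r₁ + R) / 2 : ℝ) : ℂ)‖ := norm_sub_le _ _
        _ ≤ R + R := by
            refine add_le_add hz ?_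
            rw [Complex.norm_real, Real.norm_eq_abs, abs_of_neg (by linarith)]
            linarith
        _ = T * ((R - r₁) / 2) := by
            rw [hT]
            field_simp
            ring
  -- the auxiliary function
  have hmax : ‖P.eval z * ((1 - z / R) / 2) ^ k‖ ≤ 1 := by
    have hfr : frontier (Metric.ball (0 : ℂ) R) = Metric.sphere 0 R := frontier_ball _ hR.ne'
    refine Complex.norm_le_of_forall_mem_frontier_norm_le (U := Metric.ball (0 : ℂ) R)
      (f := fun z => P.eval z * ((1 - z / R) / 2) ^ k) Metric.isBounded_ball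
      (Differentiable.diffContOnCl ?_) (fun w hw => ?_) ?_
    · exact P.differentiable.mul (by fun_prop)
    · rw [hfr] at hw
      have hw' : ‖w‖ = R := by simpa using hw
      rw [norm_mul, norm_pow]
      by_cases hgap : 0 < w.re ∧ |w.im| < t * w.re
      · have h1 := hgrow w hw'.le
        have h2 := gap_bound hR ht0 hw' hgap.1 hgap.2
        have h3 : t / 2 = (C ^ N)⁻¹ := by
          rw [ht]
          field_simp
        rw [h3] at h2
        calc ‖P.eval w‖ * ‖(1 - w / R) / 2‖ ^ k ≤ C ^ n * ((C ^ N)⁻¹) ^ k :=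
              mul_le_mul h1 (pow_le_pow_left₀ (norm_nonneg _) h2 k) (by positivity) (by positivity)
          _ = C ^ n / C ^ (N * k) := by
              rw [inv_pow, ← pow_mul, div_eq_mul_inv]
          _ ≤ 1 := by
              rw [div_le_one (by positivity)]
              exact pow_le_pow_right₀ hC1 hnk
      · have h1 := h w ⟨by rw [hw']; exact hrR.le, hw'.le, hgap⟩
        have h2 : ‖(1 - w / R) / 2‖ ≤ 1 := by
          rw [norm_div, Complex.norm_ofNat, div_le_one (by norm_num)]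
          calc ‖1 - w / R‖ ≤ ‖(1 : ℂ)‖ + ‖w / R‖ := norm_sub_le _ _
            _ = 2 := by
                rw [norm_one, norm_div, hw', Complex.norm_real, Real.norm_eq_abs, abs_of_pos hR,
                  div_self hR.ne']
                norm_num
        calc ‖P.eval w‖ * ‖(1 - w / R) / 2‖ ^ k ≤ 1 * 1 :=
              mul_le_mul h1 (pow_le_one₀ (norm_nonneg _) h2) (by positivity) zero_le_one
          _ = 1 := one_mul 1
    · rw [closure_ball _ hR.ne']
      simp only [Metric.mem_closedBall, dist_zero_right]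
      linarith
  -- conclusion
  have hh : (R - r₁) / (2 * R) ≤ ‖(1 - z / R) / 2‖ := by
    rw [norm_div, Complex.norm_ofNat]
    have h1 := norm_sub_norm_le (1 : ℂ) (z / R)
    rw [norm_one, norm_div, Complex.norm_real, Real.norm_eq_abs, abs_of_pos hR] at h1
    have h2 : ‖z‖ / R ≤ r₁ / R := div_le_div_of_nonneg_right hz hR.le
    have h3 : (R - r₁) / (2 * R) = (1 - r₁ / R) / 2 := by
      field_simp
    rw [h3]
    linarith
  rw [norm_mul, norm_pow] at hmax
  have h4 : ((R - r₁) / (2 * R)) ^ k ≤ ‖(1 - z / R) / 2‖ ^ k := pow_le_pow_left₀ (by positivity) hh k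
  have h5 : ‖P.eval z‖ * ((R - r₁) / (2 * R)) ^ k ≤ 1 :=
    (mul_le_mul_of_nonneg_left h4 (norm_nonneg _)).trans hmax
  have h6 : (2 * R / (R - r₁)) ^ k = (((R - r₁) / (2 * R)) ^ k)⁻¹ := by
    rw [← inv_pow, inv_div]
  rw [h6, ← one_div, le_div_iff₀ (by positivity)]
  exact h5

end Q73.Univ
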