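import Pool.Agent.Q73.Univ.Poly

/-!
# The compact sets and densities
-/

set_option autoImplicit false

open Polynomial Filter Topology

namespace Q73.Univ

theorem sector_open (t : ℝ) : IsOpen {z : ℂ | 0 < z.re ∧ |z.im| < t * z.re} := by
  have h1 : IsOpen {z : ℂ | 0 < z.re} := isOpen_lt continuous_const Complex.continuous_re
  have h2 : IsOpen {z : ℂ | |z.im| < t * z.re} :=
    isOpen_lt Complex.continuous_im.abs (continuous_const.mul Complex.continuous_re)
  exact h1.inter h2

theorem KK_compact (r₁ R t : ℝ) : IsCompact (KK r₁ R t) := by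
  have h1 : KK r₁ R t = Metric.closedBall 0 R ∩ ({z | r₁ ≤ ‖z‖} ∩ {z : ℂ | 0 < z.re ∧ |z.im| < t * z.re}ᶜ) := by
    ext z
    simp only [KK, Set.mem_ofPred_eq, Set.mem_inter_iff, Metric.mem_closedBall, dist_zero_right,
      Set.mem_compl_iff]
    tauto
  rw [h1]
  refine (isCompact_closedBall _ _).inter_right (IsClosed.inter ?_ (sector_open t).isClosed_compl)
  exact isClosed_le continuous_const continuous_norm

theorem sector_convex (t : ℝ) : Convex ℝ {z : ℂ | 0 < z.re ∧ |z.im| < t * z.re} := by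
  intro x hx y hy a b ha hb hab
  obtain ⟨hx1, hx2⟩ := hx
  obtain ⟨hy1, hy2⟩ := hy
  simp only [Set.mem_ofPred_eq, Complex.add_re, Complex.add_im, Complex.real_smul,
    Complex.re_ofReal_mul, Complex.im_ofReal_mul]
  rcases ha.lt_or_eq with h | h
  · refine ⟨by nlinarith [mul_nonneg hb hy1.le], ?_⟩
    calc |a * x.im + b * y.im| ≤ |a * x.im| + |b * y.im| := abs_add_le _ _
      _ = a * |x.im| + b * |y.im| := by rw [abs_mul, abs_mul, abs_of_nonneg ha, abs_of_nonneg hb]
      _ < t * (a * x.re + b * y.re) := by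
          have e1 := mul_le_mul_of_nonneg_left hy2.le hb
          have e2 := mul_lt_mul_of_pos_left hx2 h
          linarith
  · have hb1 : b = 1 := by linarith
    rw [← h, hb1]
    simpa using ⟨hy1, hy2⟩

theorem outer_preconnected (R : ℝ) (hR : 0 < R) : IsPreconnected {z : ℂ | R < ‖z‖} := by
  have h : {z : ℂ | R < ‖z‖} = (fun p : ℝ × ℝ => (p.1 : ℂ) * Complex.exp (p.2 * Complex.I)) ''
      (Set.Ioi R ×ˢ Set.univ) := by
    ext z
    simp only [Set.mem_ofPred_eq, Set.mem_image, Set.mem_prod, Set.mem_Ioi, Set.mem_univ, and_true,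
      Prod.exists]
    constructor
    · intro hz
      exact ⟨‖z‖, z.arg, hz, Complex.norm_mul_exp_arg_mul_I z⟩
    · rintro ⟨a, b, ha, rfl⟩
      rw [norm_mul, Complex.norm_exp_ofReal_mul_I, mul_one, Complex.norm_real, Real.norm_eq_abs,
        abs_of_pos (hR.trans ha)]
      exact ha
  rw [h]
  refine (isPreconnected_Ioi.prod isPreconnected_univ).image _ (Continuous.continuousOn ?_)
  fun_prop

theorem KK_compl_connected {r₁ R t : ℝ} (hr : 0 < r₁) (hR : 0 < R) (ht : 0 < t) :
    IsConnected (KK r₁ R t)ᶜ := by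
  have h1 : (KK r₁ R t)ᶜ = Metric.ball 0 r₁ ∪ {z : ℂ | 0 < z.re ∧ |z.im| < t * z.re} ∪
      {z : ℂ | R < ‖z‖} := by
    ext z
    simp only [KK, Set.mem_compl_iff, Set.mem_ofPred_eq, Set.mem_union, Metric.mem_ball,
      dist_zero_right]
    have e1 : ¬ r₁ ≤ ‖z‖ ↔ ‖z‖ < r₁ := not_le
    have e2 : ¬ ‖z‖ ≤ R ↔ R < ‖z‖ := not_le
    tauto
  rw [h1]
  refine ⟨⟨0, Or.inl (Or.inl (by simpa using hr))⟩, ?_⟩
  have hS := (sector_convex t).isPreconnected
  have hB : IsPreconnected (Metric.ball (0 : ℂ) r₁) := (convex_ball _ _).isPreconnected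
  have mem_sector : ∀ x : ℝ, 0 < x → (x : ℂ) ∈ {z : ℂ | 0 < z.re ∧ |z.im| < t * z.re} := by
    intro x hx
    refine ⟨by simpa using hx, ?_⟩
    rw [Complex.ofReal_im, Complex.ofReal_re, abs_zero]
    positivity
  have h2 : IsPreconnected (Metric.ball (0 : ℂ) r₁ ∪ {z : ℂ | 0 < z.re ∧ |z.im| < t * z.re}) := by
    refine IsPreconnected.union ((r₁ / 2 : ℝ) : ℂ) ?_ (mem_sector _ (by positivity)) hB hS
    rw [Metric.mem_ball, dist_zero_right, Complex.norm_real, Real.norm_eq_abs,
      abs_of_pos (by positivity)]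
    linarith
  refine IsPreconnected.union ((R + 1 : ℝ) : ℂ) (Or.inr (mem_sector _ (by positivity))) ?_ h2
    (outer_preconnected R hR)
  simp only [Set.mem_ofPred_eq]
  rw [Complex.norm_real, Real.norm_eq_abs, abs_of_pos (by positivity)]
  linarith

open Classical in
/-- lower density of a set of natural numbers -/
noncomputable def ldens (E : Set ℕ) : ℝ :=
  liminf (fun N : ℕ => (((Finset.range (N + 1)).filter (· ∈ E)).card : ℝ) / ((N : ℝ) + 1)) atTop

open Classical in
/-- a set of positive lower density meets `[⌊n / M⌋, n]` for all large `n` -/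
theorem exists_mem_of_ldens {E : Set ℕ} (h : 0 < ldens E) :
    ∃ M : ℕ, 1 ≤ M ∧ ∃ n₀ : ℕ, ∀ n, n₀ ≤ n → ∃ m ∈ E, n / M ≤ m ∧ m ≤ n := by
  obtain ⟨c, hc0, hc⟩ := exists_between h
  have hev : ∀ᶠ N : ℕ in atTop,
      c < (((Finset.range (N + 1)).filter (· ∈ E)).card : ℝ) / ((N : ℝ) + 1) := by
    refine eventually_lt_of_lt_liminf hc ?_
    refine ⟨0, ?_⟩
    rw [eventually_map]
    exact Eventually.of_forall fun N => by positivity
  obtain ⟨n₀, hn₀⟩ := eventually_atTop.1 hev
  obtain ⟨M, hM⟩ := exists_nat_gt (1 / c)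
  have hM0 : (0 : ℝ) < M := lt_trans (by positivity) hM
  have hM1 : 1 ≤ M := by
    have : 0 < M := by exact_mod_cast hM0
    omega
  refine ⟨M, hM1, n₀, fun n hn => ?_⟩
  by_contra hcon
  push Not at hcon
  have h1 : (Finset.range (n + 1)).filter (· ∈ E) ⊆ Finset.range (n / M) := by
    intro m hm
    rw [Finset.mem_filter, Finset.mem_range] at hm
    rw [Finset.mem_range]
    by_contra h2
    push Not at h2
    have := hcon m hm.2 h2
    omega
  have h2 := Finset.card_le_card h1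
  rw [Finset.card_range] at h2
  have h3 := hn₀ n hn
  rw [lt_div_iff₀ (by positivity)] at h3
  have h4 : (((Finset.range (n + 1)).filter (· ∈ E)).card : ℝ) ≤ (n : ℝ) / M := by
    calc (((Finset.range (n + 1)).filter (· ∈ E)).card : ℝ) ≤ ((n / M : ℕ) : ℝ) := by exact_mod_cast h2
      _ ≤ (n : ℝ) / M := Nat.cast_div_le
  have h5 : (n : ℝ) / M ≤ c * n := by
    rw [div_le_iff₀ hM0]
    have : 1 ≤ c * M := by
      rw [div_lt_iff₀ hc0] at hM
      linarith
    have hn0 : (0 : ℝ) ≤ n := n.cast_nonneg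
    nlinarith
  nlinarith

end Q73.Univ
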